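import Mathlib
import Pool.Agent.W313.HB.Stm

set_option autoImplicit false
set_option linter.all false

namespace Pool.Agent.W356.HB.Count

open Finset Polynomial
open Pool.Agent.W313.HB

theorem harm (A : ℕ) : ∑ b ∈ Icc 1 A, 1 / (b : ℝ) ≤ 1 + Real.log A := by
  have h := harmonic_le_one_add_log A
  rw [harmonic_eq_sum_Icc] at h
  push_cast at h
  simpa [one_div] using h

theorem mult_count (A m : ℕ) (hm : 1 ≤ m) :
    (((Icc 1 A).filter (fun a : ℕ => m ∣ a)).card : ℝ) ≤ (A : ℝ) / m := by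
  have h1 : ((Icc 1 A).filter (fun a : ℕ => m ∣ a)).card = A / m := by
    have := Nat.Ioc_filter_dvd_card_eq_div A m
    rw [← this]
    congr 1
  rw [h1]
  exact Nat.cast_div_le

theorem blocks (P : ℕ → Prop) [DecidablePred P] (δ : ℝ) (y : ℕ) (hy : 1 ≤ y)
    (h : ∀ B : ℕ, y ≤ B → (((Ioc B (2 * B)).filter P).card : ℝ) ≤ δ * B) (n : ℕ) :
    ∑ p ∈ Ioc y (2 ^ n * y), (if P p then 1 / (p : ℝ) else 0) ≤ δ * n := by
  induction n with
  | zero => simp
  | succ n ih =>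
    have hB : y ≤ 2 ^ n * y := Nat.le_mul_of_pos_left y (by positivity)
    have hB2 : 2 ^ n * y ≤ 2 ^ (n + 1) * y := Nat.mul_le_mul_right y (pow_le_pow_right₀ (by norm_num) (by omega))
    rw [← Finset.sum_Ioc_consecutive _ hB hB2]
    have hBpos : (0 : ℝ) < ((2 ^ n * y : ℕ) : ℝ) := by
      have : 0 < 2 ^ n * y := by positivity
      exact_mod_cast this
    have h2 : ∑ p ∈ Ioc (2 ^ n * y) (2 ^ (n + 1) * y), (if P p then 1 / (p : ℝ) else 0) ≤ δ := by
      have e : 2 ^ (n + 1) * y = 2 * (2 ^ n * y) := by ring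
      rw [e, ← Finset.sum_filter]
      calc ∑ p ∈ (Ioc (2 ^ n * y) (2 * (2 ^ n * y))).filter P, 1 / (p : ℝ)
          ≤ ∑ p ∈ (Ioc (2 ^ n * y) (2 * (2 ^ n * y))).filter P, 1 / ((2 ^ n * y : ℕ) : ℝ) := by
            refine sum_le_sum (fun p hp => ?_)
            have hp1 := (mem_Ioc.mp (mem_filter.mp hp).1).1
            exact one_div_le_one_div_of_le hBpos (by exact_mod_cast hp1.le)
        _ = (((Ioc (2 ^ n * y) (2 * (2 ^ n * y))).filter P).card : ℝ) * (1 / ((2 ^ n * y : ℕ) : ℝ)) := by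
            rw [sum_const, nsmul_eq_mul]
        _ ≤ (δ * ((2 ^ n * y : ℕ) : ℝ)) * (1 / ((2 ^ n * y : ℕ) : ℝ)) :=
            mul_le_mul_of_nonneg_right (h _ hB) (by positivity)
        _ = δ := by field_simp
    push_cast
    linarith

theorem psum (P : ℕ → Prop) [DecidablePred P] (δ : ℝ) (hδ : 0 ≤ δ) (y A : ℕ) (hy : 1 ≤ y) (hA : 2 ≤ A)
    (h : ∀ B : ℕ, y ≤ B → (((Ioc B (2 * B)).filter P).card : ℝ) ≤ δ * B) :
    ∑ p ∈ (Ioc y A).filter P, 1 / (p : ℝ) ≤ 2 * δ * (1 + Real.log A) := by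
  have h1 := blocks P δ y hy h (Nat.log 2 A + 1)
  have h2 : ∑ p ∈ (Ioc y A).filter P, 1 / (p : ℝ) ≤
      ∑ p ∈ Ioc y (2 ^ (Nat.log 2 A + 1) * y), (if P p then 1 / (p : ℝ) else 0) := by
    rw [← Finset.sum_filter]
    refine sum_le_sum_of_subset_of_nonneg ?_ (fun p _ _ => by positivity)
    refine filter_subset_filter _ (Ioc_subset_Ioc le_rfl ?_)
    have : A < 2 ^ (Nat.log 2 A + 1) := Nat.lt_pow_succ_log_self (by norm_num) A
    calc A ≤ 2 ^ (Nat.log 2 A + 1) * 1 := by omega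
      _ ≤ _ := Nat.mul_le_mul_left _ hy
  refine h2.trans (h1.trans ?_)
  have hlogA : 0 ≤ Real.log A := Real.log_natCast_nonneg A
  have h3 : (Nat.log 2 A : ℝ) ≤ 2 * Real.log A := by
    have h4 : ((2 : ℕ) : ℝ) ^ (Nat.log 2 A) ≤ A := by
      exact_mod_cast Nat.pow_log_le_self 2 (by omega)
    have h5 := Real.log_le_log (by positivity) h4
    rw [Real.log_pow] at h5
    have h6 := Real.log_two_gt_d9
    have h7 : (0 : ℝ) ≤ (Nat.log 2 A : ℝ) := Nat.cast_nonneg _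
    push_cast at h5
    nlinarith
  push_cast
  nlinarith

open Classical in
/-- The set of the statement. -/
noncomputable def TS (bad : ℕ → ℕ → Prop) (y A : ℕ) : Finset ℕ :=
  (Icc 1 A).filter (fun a : ℕ => Squarefree a ∧ ∃ p ∈ a.primeFactors, y < p ∧
      bad (∏ q ∈ a.primeFactors.filter (fun q => q < p), q) p)

open Classical in
/-- The primes. -/
noncomputable def PS (bad : ℕ → ℕ → Prop) (y A b : ℕ) : Finset ℕ :=
  (Ioc y A).filter (fun p => p.Prime ∧ bad b p)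

/-- The multiples. -/
def MS (A m : ℕ) : Finset ℕ := (Icc 1 A).filter (fun a : ℕ => m ∣ a)

theorem sub1 (bad : ℕ → ℕ → Prop) (y A : ℕ) : TS bad y A ⊆
      (Icc 1 A).biUnion (fun b => (PS bad y A b).biUnion (fun p => MS A (b * p))) := by
  classical
  intro a ha
  obtain ⟨haI, hsq, p, hp, hyp, hbad⟩ := mem_filter.mp ha
  obtain ⟨ha1, haA⟩ := mem_Icc.mp haI
  have hpp := Nat.prime_of_mem_primeFactors hp
  have hpa := Nat.dvd_of_mem_primeFactors hp
  have hdiv : (∏ q ∈ a.primeFactors.filter (fun q => q < p), q) * p ∣ a := by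
    have h1 : (∏ q ∈ a.primeFactors.filter (fun q => q < p), q) * p =
        ∏ q ∈ insert p (a.primeFactors.filter (fun q => q < p)), q := by
      rw [prod_insert (by simp), mul_comm]
    rw [h1]
    refine (Finset.prod_dvd_prod_of_subset _ _ _ ?_).trans (Nat.prod_primeFactors_dvd a)
    exact insert_subset hp (filter_subset _ _)
  have hple : p ≤ A := (Nat.le_of_dvd (by omega) hpa).trans haA
  have hbpos : 1 ≤ ∏ q ∈ a.primeFactors.filter (fun q => q < p), q := by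
    refine Nat.one_le_iff_ne_zero.mpr (Finset.prod_ne_zero_iff.mpr (fun q hq => ?_))
    exact (Nat.prime_of_mem_primeFactors (mem_filter.mp hq).1).ne_zero
  have hble : (∏ q ∈ a.primeFactors.filter (fun q => q < p), q) ≤ A :=
    (Nat.le_of_dvd (by omega) (dvd_of_mul_right_dvd hdiv)).trans haA
  refine mem_biUnion.mpr ⟨_, mem_Icc.mpr ⟨hbpos, hble⟩, mem_biUnion.mpr ⟨p, ?_, ?_⟩⟩
  · exact mem_filter.mpr ⟨mem_Ioc.mpr ⟨hyp, hple⟩, hpp, hbad⟩
  · exact mem_filter.mpr ⟨haI, hdiv⟩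

theorem card_bi (S : Finset ℕ) (T : ℕ → Finset ℕ) :
    (((S.biUnion T).card : ℕ) : ℝ) ≤ ∑ b ∈ S, ((T b).card : ℝ) := by
  have h : (S.biUnion T).card ≤ ∑ b ∈ S, (T b).card := card_biUnion_le
  exact_mod_cast h

theorem MS_card (A b p : ℕ) (hb : 1 ≤ b) (hp : 1 ≤ p) :
    ((MS A (b * p)).card : ℝ) ≤ (A : ℝ) * (1 / (b : ℝ)) * (1 / (p : ℝ)) := by
  have h := mult_count A (b * p) (Nat.mul_pos hb hp)
  rw [mul_assoc, one_div_mul_one_div, mul_one_div]
  rw [Nat.cast_mul] at h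
  exact h

theorem inner (bad : ℕ → ℕ → Prop) (y A b : ℕ) (hb : 1 ≤ b) :
    ((((PS bad y A b).biUnion (fun p => MS A (b * p))).card : ℕ) : ℝ) ≤
      (A : ℝ) * (1 / (b : ℝ)) * ∑ p ∈ PS bad y A b, 1 / (p : ℝ) := by
  refine (card_bi _ _).trans ?_
  rw [mul_sum]
  refine sum_le_sum (fun p hp => MS_card A b p hb ?_)
  classical
  unfold PS at hp
  exact (mem_filter.mp hp).2.1.one_lt.le

theorem TS_card (bad : ℕ → ℕ → Prop) (δ : ℝ) (y A : ℕ) (hδ : 0 ≤ δ) (hy : 1 ≤ y) (hA : 2 ≤ A) (L : ℝ)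
    (hL : 0 ≤ L) (hharm : ∑ b ∈ Icc 1 A, 1 / (b : ℝ) ≤ 1 + L)
    (hps : ∀ b, ∑ p ∈ PS bad y A b, 1 / (p : ℝ) ≤ 2 * δ * (1 + L)) :
    ((TS bad y A).card : ℝ) ≤ 4 * δ * A * (1 + L) ^ 2 := by
  have h0 : ((TS bad y A).card : ℝ) ≤
      ((((Icc 1 A).biUnion (fun b => (PS bad y A b).biUnion (fun p => MS A (b * p)))).card : ℕ) : ℝ) :=
    Nat.cast_le.mpr (card_le_card (sub1 bad y A))
  refine h0.trans ((card_bi _ _).trans ?_)
  calc ∑ b ∈ Icc 1 A, (((PS bad y A b).biUnion (fun p => MS A (b * p))).card : ℝ)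
      ≤ ∑ b ∈ Icc 1 A, (A : ℝ) * (1 / (b : ℝ)) * (2 * δ * (1 + L)) := by
        refine sum_le_sum (fun b hb => (inner bad y A b (mem_Icc.mp hb).1).trans ?_)
        exact mul_le_mul_of_nonneg_left (hps b) (by positivity)
    _ = A * (2 * δ * (1 + L)) * ∑ b ∈ Icc 1 A, 1 / (b : ℝ) := by
        rw [mul_sum]
        exact sum_congr rfl (fun b _ => by ring)
    _ ≤ A * (2 * δ * (1 + L)) * (1 + L) :=
        mul_le_mul_of_nonneg_left hharm (by positivity)
    _ ≤ 4 * δ * A * (1 + L) ^ 2 := by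
        have : 0 ≤ δ * A * (1 + L) ^ 2 := by positivity
        nlinarith

theorem count_ : S_COUNT := by
  intro bad δ y A hδ hy hA h
  refine TS_card bad δ y A hδ hy hA (Real.log A) (Real.log_natCast_nonneg A) (harm A) ?_
  intro b
  unfold PS
  classical
  exact psum _ δ hδ y A hy hA (h b)

theorem count2_ : S_COUNT2 := by
  classical
  intro bad δ X0 A hδ hX0 hA h
  have hsub : ((Icc 1 A).filter (fun a : ℕ => ∃ b p : ℕ, a = b * p ∧ p.Prime ∧ b * X0 ≤ A ∧ bad b p)) ⊆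
      ((Icc 1 A).filter (fun b => b * X0 ≤ A)).biUnion (fun b =>
        ((Icc 1 (A / b)).filter (fun p => p.Prime ∧ bad b p)).image (fun p => b * p)) := by
    intro a ha
    obtain ⟨haI, b, p, hab, hp, hbX, hbad⟩ := mem_filter.mp ha
    obtain ⟨ha1, haA⟩ := mem_Icc.mp haI
    have hb1 : 1 ≤ b := by
      rcases Nat.eq_zero_or_pos b with hb | hb
      · rw [hb, zero_mul] at hab; omega
      · exact hb
    have hbA : b ≤ A := by
      calc b ≤ b * p := Nat.le_mul_of_pos_right b hp.pos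
        _ = a := hab.symm
        _ ≤ A := haA
    refine mem_biUnion.mpr ⟨b, mem_filter.mpr ⟨mem_Icc.mpr ⟨hb1, hbA⟩, hbX⟩, mem_image.mpr ⟨p, ?_, hab.symm⟩⟩
    refine mem_filter.mpr ⟨mem_Icc.mpr ⟨hp.one_lt.le, ?_⟩, hp, hbad⟩
    rw [Nat.le_div_iff_mul_le hb1, mul_comm, ← hab]
    exact haA
  have h1 := (card_le_card hsub).trans card_biUnion_le
  have h2 : (((Icc 1 A).filter (fun a : ℕ => ∃ b p : ℕ, a = b * p ∧ p.Prime ∧ b * X0 ≤ A ∧ bad b p)).card : ℝ) ≤
      ∑ b ∈ (Icc 1 A).filter (fun b => b * X0 ≤ A),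
        (((((Icc 1 (A / b)).filter (fun p => p.Prime ∧ bad b p)).image (fun p => b * p)).card : ℕ) : ℝ) := by
    exact_mod_cast h1
  refine h2.trans ?_
  calc ∑ b ∈ (Icc 1 A).filter (fun b => b * X0 ≤ A),
        (((((Icc 1 (A / b)).filter (fun p => p.Prime ∧ bad b p)).image (fun p => b * p)).card : ℕ) : ℝ)
      ≤ ∑ b ∈ (Icc 1 A).filter (fun b => b * X0 ≤ A), δ * A * (1 / (b : ℝ)) := by
        refine sum_le_sum (fun b hb => ?_)
        obtain ⟨hbI, hbX⟩ := mem_filter.mp hb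
        obtain ⟨hb1, hbA⟩ := mem_Icc.mp hbI
        have h3 : X0 ≤ A / b := by
          rw [Nat.le_div_iff_mul_le hb1, mul_comm]; exact hbX
        have h4 := h b (A / b) h3
        have h5 : (((((Icc 1 (A / b)).filter (fun p => p.Prime ∧ bad b p)).image (fun p => b * p)).card : ℕ) : ℝ) ≤
            (((Icc 1 (A / b)).filter (fun p => p.Prime ∧ bad b p)).card : ℝ) := by
          exact_mod_cast card_image_le
        refine h5.trans (h4.trans ?_)
        rw [mul_assoc]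
        refine mul_le_mul_of_nonneg_left ?_ hδ
        rw [mul_one_div]
        exact Nat.cast_div_le
    _ ≤ ∑ b ∈ Icc 1 A, δ * A * (1 / (b : ℝ)) :=
        sum_le_sum_of_subset_of_nonneg (filter_subset _ _) (fun b _ _ => by positivity)
    _ = δ * A * ∑ b ∈ Icc 1 A, 1 / (b : ℝ) := by rw [mul_sum]
    _ ≤ δ * A * (1 + Real.log A) := mul_le_mul_of_nonneg_left (harm A) (by positivity)

end Pool.Agent.W356.HB.Count
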