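import Mathlib
import Pool.Agent.W313.HB.Stm

set_option autoImplicit false
set_option linter.all false

namespace Pool.Agent.W356.HB.Size

open Finset Polynomial
open Pool.Agent.W313.HB

theorem low (F : ℤ[X]) (t : ℤ) (ht : ∑ i ∈ range (F.natDegree + 1), |F.coeff i| < t) :
    |F.eval t - F.leadingCoeff * t ^ F.natDegree| < t ^ F.natDegree := by
  have hS0 : 0 ≤ ∑ i ∈ range (F.natDegree + 1), |F.coeff i| := sum_nonneg (fun i _ => abs_nonneg _)
  have ht0 : 0 < t := lt_of_le_of_lt hS0 ht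
  have h1 : F.eval t - F.leadingCoeff * t ^ F.natDegree =
      ∑ i ∈ range F.natDegree, F.coeff i * t ^ i := by
    rw [Polynomial.eval_eq_sum_range, sum_range_succ, Polynomial.leadingCoeff]
    ring
  rw [h1]
  have h2 : t * |∑ i ∈ range F.natDegree, F.coeff i * t ^ i| ≤
      (∑ i ∈ range (F.natDegree + 1), |F.coeff i|) * t ^ F.natDegree := by
    calc t * |∑ i ∈ range F.natDegree, F.coeff i * t ^ i|
        ≤ t * ∑ i ∈ range F.natDegree, |F.coeff i * t ^ i| :=
          mul_le_mul_of_nonneg_left (abs_sum_le_sum_abs _ _) ht0.le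
      _ = ∑ i ∈ range F.natDegree, |F.coeff i| * t ^ (i + 1) := by
          rw [mul_sum]
          refine sum_congr rfl (fun i _ => ?_)
          rw [abs_mul, abs_of_nonneg (pow_nonneg ht0.le i)]
          ring
      _ ≤ ∑ i ∈ range F.natDegree, |F.coeff i| * t ^ F.natDegree := by
          refine sum_le_sum (fun i hi => ?_)
          refine mul_le_mul_of_nonneg_left ?_ (abs_nonneg _)
          exact pow_le_pow_right₀ (by omega) (by have := mem_range.mp hi; omega)
      _ ≤ ∑ i ∈ range (F.natDegree + 1), |F.coeff i| * t ^ F.natDegree := by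
          refine sum_le_sum_of_subset_of_nonneg (range_subset_range.mpr (by omega)) ?_
          intro i _ _
          positivity
      _ = _ := by rw [sum_mul]
  have hpos : 0 < t ^ F.natDegree := by positivity
  have h3 : (∑ i ∈ range (F.natDegree + 1), |F.coeff i|) * t ^ F.natDegree < t * t ^ F.natDegree :=
    mul_lt_mul_of_pos_right ht hpos
  have h4 := lt_of_le_of_lt h2 h3
  exact lt_of_mul_lt_mul_left h4 ht0.le

theorem up (F : ℤ[X]) (t : ℤ) (ht : 1 ≤ t) :
    |F.eval t| ≤ (∑ i ∈ range (F.natDegree + 1), |F.coeff i|) * t ^ F.natDegree := by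
  rw [Polynomial.eval_eq_sum_range, sum_mul]
  refine (abs_sum_le_sum_abs _ _).trans (sum_le_sum (fun i hi => ?_))
  rw [abs_mul, abs_of_nonneg (pow_nonneg (by omega : (0:ℤ) ≤ t) i)]
  refine mul_le_mul_of_nonneg_left ?_ (abs_nonneg _)
  exact pow_le_pow_right₀ ht (by have := mem_range.mp hi; omega)

theorem size_ : S_SIZE := by
  intro F hF
  obtain ⟨S, hS⟩ : ∃ S : ℤ, S = ∑ i ∈ range (F.natDegree + 1), |F.coeff i| := ⟨_, rfl⟩
  have hS0 : 0 ≤ S := by
    rw [hS]; exact sum_nonneg (fun i _ => abs_nonneg _)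
  refine ⟨3 * F.natDegree + 1, S.toNat + 3, ?_⟩
  intro U hU M t1 u hM1 hMU ht1 hUu huU
  have hSU : S ≤ U := by
    have : (S.toNat : ℤ) = S := Int.toNat_of_nonneg hS0
    omega
  have hU3 : 3 ≤ U := by omega
  obtain ⟨t, ht⟩ : ∃ t : ℤ, t = (t1 : ℤ) + (M : ℤ) * (u : ℤ) := ⟨_, rfl⟩
  have hval : val F t1 M u = F.eval t := by rw [ht]; rfl
  have hUt : (U : ℤ) < t := by
    have h1 : (u : ℤ) ≤ (M : ℤ) * (u : ℤ) := by
      have : (1 : ℤ) ≤ M := by exact_mod_cast hM1
      nlinarith [Int.natCast_nonneg u]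
    have h2 : (U : ℤ) < u := by exact_mod_cast hUu
    have h3 : (0 : ℤ) ≤ t1 := Int.natCast_nonneg t1
    rw [ht]; linarith
  have htU : t ≤ (U : ℤ) ^ 3 := by
    have h1 : (M : ℤ) * (u : ℤ) ≤ (U : ℤ) * (2 * U) := by
      have a1 : (M : ℤ) ≤ U := by exact_mod_cast hMU
      have a2 : (u : ℤ) ≤ 2 * U := by exact_mod_cast huU
      exact mul_le_mul a1 a2 (Int.natCast_nonneg u) (Int.natCast_nonneg U)
    have h2 : (t1 : ℤ) ≤ U := by exact_mod_cast ht1
    have h3 : (3 : ℤ) ≤ U := by exact_mod_cast hU3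
    rw [ht]
    nlinarith [mul_nonneg (by linarith : (0:ℤ) ≤ U) (by linarith : (0:ℤ) ≤ (U:ℤ) - 3),
      mul_nonneg (mul_nonneg (by linarith : (0:ℤ) ≤ U) (by linarith : (0:ℤ) ≤ (U : ℤ))) (by linarith : (0:ℤ) ≤ (U:ℤ) - 3)]
  have ht1' : 1 ≤ t := by
    have : (3 : ℤ) ≤ U := by exact_mod_cast hU3
    omega
  have hlow := low F t (by rw [← hS]; exact lt_of_le_of_lt hSU hUt)
  have hup := up F t ht1'
  rw [← hS] at hup
  have htp : 0 < t ^ F.natDegree := by positivity
  have hlc : F.leadingCoeff ≠ 0 := Polynomial.leadingCoeff_ne_zero.mpr hF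
  rw [hval]
  refine ⟨?_, ?_, ?_⟩
  · intro h0
    rw [h0, zero_sub, abs_neg, abs_mul, abs_of_pos htp] at hlow
    have : 1 ≤ |F.leadingCoeff| := Int.one_le_abs hlc
    nlinarith
  · refine hup.trans ?_
    calc S * t ^ F.natDegree ≤ (U : ℤ) * ((U : ℤ) ^ 3) ^ F.natDegree := by
          refine mul_le_mul hSU (pow_le_pow_left₀ (by omega) htU _) htp.le (Int.natCast_nonneg U)
      _ = (U : ℤ) ^ (3 * F.natDegree + 1) := by rw [← pow_mul]; ring
  · intro hpos
    have h1 : t ^ F.natDegree ≤ F.leadingCoeff * t ^ F.natDegree := by nlinarith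
    have h2 := (abs_lt.mp hlow).1
    linarith

end Pool.Agent.W356.HB.Size
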