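import Mathlib
import Pool.Agent.W313.HB.Stm

set_option autoImplicit false
set_option linter.all false

namespace Pool.Agent.W356.HB.Smooth

open Finset Polynomial
open Pool.Agent.W313.HB

theorem mult_count (A m : ℕ) :
    (((Icc 1 A).filter (fun a : ℕ => m ∣ a)).card : ℝ) ≤ (A : ℝ) / m := by
  have h1 : ((Icc 1 A).filter (fun a : ℕ => m ∣ a)).card = A / m := by
    have := Nat.Ioc_filter_dvd_card_eq_div A m
    rw [← this]
    congr 1
  rw [h1]
  exact Nat.cast_div_le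

/-- The logarithm of a squarefree number. -/
theorem log_le (a w : ℕ) (hsq : Squarefree a) (h : ∀ p ∈ a.primeFactors, p ≤ w) :
    Real.log a ≤ ∑ p ∈ (Icc 1 w).filter Nat.Prime, (if p ∣ a then Real.log p else 0) := by
  have h1 : Real.log a = ∑ p ∈ a.primeFactors, Real.log p := by
    conv_lhs => rw [← Nat.prod_primeFactors_of_squarefree hsq]
    rw [Nat.cast_prod, Real.log_prod (fun p hp => ?_)]
    have := (Nat.prime_of_mem_primeFactors hp).pos
    positivity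
  rw [h1, ← Finset.sum_filter]
  refine sum_le_sum_of_subset_of_nonneg ?_ (fun p _ _ => Real.log_natCast_nonneg p)
  intro p hp
  have hpp := Nat.prime_of_mem_primeFactors hp
  exact mem_filter.mpr ⟨mem_filter.mpr ⟨mem_Icc.mpr ⟨hpp.one_lt.le, h p hp⟩, hpp⟩,
    Nat.dvd_of_mem_primeFactors hp⟩

theorem sum_log (A w : ℕ) (B : Finset ℕ) (hB : B ⊆ Icc 1 A)
    (h : ∀ a ∈ B, Squarefree a ∧ ∀ p ∈ a.primeFactors, p ≤ w) :
    ∑ a ∈ B, Real.log a ≤ A * ∑ p ∈ (Icc 1 w).filter Nat.Prime, Real.log p / p := by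
  calc ∑ a ∈ B, Real.log a
      ≤ ∑ a ∈ B, ∑ p ∈ (Icc 1 w).filter Nat.Prime, (if p ∣ a then Real.log p else 0) :=
        sum_le_sum (fun a ha => log_le a w (h a ha).1 (h a ha).2)
    _ ≤ ∑ a ∈ Icc 1 A, ∑ p ∈ (Icc 1 w).filter Nat.Prime, (if p ∣ a then Real.log p else 0) := by
        refine sum_le_sum_of_subset_of_nonneg hB (fun a _ _ => sum_nonneg (fun p _ => ?_))
        split_ifs
        · exact Real.log_natCast_nonneg p
        · exact le_rfl
    _ = ∑ p ∈ (Icc 1 w).filter Nat.Prime, ∑ a ∈ Icc 1 A, (if p ∣ a then Real.log p else 0) := sum_comm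
    _ ≤ ∑ p ∈ (Icc 1 w).filter Nat.Prime, (A : ℝ) * (Real.log p / p) := by
        refine sum_le_sum (fun p _ => ?_)
        rw [← Finset.sum_filter, sum_const, nsmul_eq_mul]
        have h1 := mult_count A p
        have h2 : 0 ≤ Real.log p := Real.log_natCast_nonneg p
        calc (((Icc 1 A).filter (fun a : ℕ => p ∣ a)).card : ℝ) * Real.log p
            ≤ (A : ℝ) / p * Real.log p := mul_le_mul_of_nonneg_right h1 h2
          _ = _ := by ring
    _ = _ := by rw [mul_sum]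

theorem card_split (A : ℕ) (B : Finset ℕ) (hB : B ⊆ Icc 1 A) :
    (B.card : ℝ) * Real.log A ≤ √(A : ℝ) * Real.log A + 2 * ∑ a ∈ B, Real.log a := by
  have hl : 0 ≤ Real.log A := Real.log_natCast_nonneg A
  have h1 : ∀ a ∈ B, Real.log A ≤ (if a ≤ Nat.sqrt A then Real.log A else 0) + 2 * Real.log a := by
    intro a ha
    have hla : 0 ≤ Real.log a := Real.log_natCast_nonneg a
    split_ifs with h
    · linarith
    · have h2 : A < a ^ 2 := Nat.sqrt_lt'.mp (by omega)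
      have hA1 : 1 ≤ A := by
        have := mem_Icc.mp (hB ha); omega
      have h3 : Real.log A ≤ Real.log ((a : ℝ) ^ 2) :=
        Real.log_le_log (by positivity) (by exact_mod_cast h2.le)
      rw [Real.log_pow] at h3
      push_cast at h3
      linarith
  have h2 : (B.card : ℝ) * Real.log A = ∑ a ∈ B, Real.log A := by rw [sum_const, nsmul_eq_mul]
  rw [h2]
  refine (sum_le_sum h1).trans ?_
  rw [sum_add_distrib, ← mul_sum, ← Finset.sum_filter, sum_const, nsmul_eq_mul]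
  have h3 : B.filter (fun a => a ≤ Nat.sqrt A) ⊆ Icc 1 (Nat.sqrt A) := by
    intro a ha
    obtain ⟨haB, hle⟩ := mem_filter.mp ha
    exact mem_Icc.mpr ⟨(mem_Icc.mp (hB haB)).1, hle⟩
  have h4 : ((B.filter (fun a => a ≤ Nat.sqrt A)).card : ℝ) ≤ √(A : ℝ) := by
    have h5 := card_le_card h3
    rw [Nat.card_Icc, Nat.add_sub_cancel] at h5
    exact (Nat.cast_le.mpr h5).trans Real.nat_sqrt_le_real_sqrt
  have := mul_le_mul_of_nonneg_right h4 hl
  linarith

theorem smooth_ (h1 : S_MERT) : S_SMOOTH := by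
  obtain ⟨C, hC, hM⟩ := h1
  intro ε hε
  obtain ⟨η, hη⟩ : ∃ η : ℝ, η = min (ε / 8) (1 / 2) := ⟨_, rfl⟩
  have hη0 : 0 < η := by rw [hη]; positivity
  have hη1 : η ≤ 1 / 2 := by rw [hη]; exact min_le_right _ _
  have hη2 : η ≤ ε / 8 := by rw [hη]; exact min_le_left _ _
  refine ⟨η, ⌈Real.exp (8 * C / ε + 1)⌉₊ + ⌈16 / ε ^ 2⌉₊ + 2, hη0, by linarith, ?_⟩
  intro A hA
  have hA2 : 2 ≤ A := by omega
  have hAr : (0 : ℝ) < A := by positivity
  have hAexp : Real.exp (8 * C / ε + 1) ≤ A := by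
    refine (Nat.le_ceil _).trans ?_
    exact_mod_cast (by omega : ⌈Real.exp (8 * C / ε + 1)⌉₊ ≤ A)
  have hA16 : 16 / ε ^ 2 ≤ A := by
    refine (Nat.le_ceil _).trans ?_
    exact_mod_cast (by omega : ⌈16 / ε ^ 2⌉₊ ≤ A)
  have hlogA : 8 * C / ε + 1 ≤ Real.log A := by
    rw [Real.le_log_iff_exp_le hAr]; exact hAexp
  have hlpos : 0 < Real.log A := by
    have : 0 ≤ 8 * C / ε := by positivity
    linarith
  have hCl : C ≤ ε / 8 * Real.log A := by
    have h2 : 8 * C / ε ≤ Real.log A := by linarith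
    rw [div_le_iff₀ hε] at h2
    linarith
  have hsqrt : √(A : ℝ) ≤ ε / 4 * A := by
    have h2 : 4 / ε ≤ √(A : ℝ) := by
      apply Real.le_sqrt_of_sq_le
      calc (4 / ε) ^ 2 = 16 / ε ^ 2 := by field_simp; norm_num
        _ ≤ (A : ℝ) := hA16
    have h3 : √(A : ℝ) * √(A : ℝ) = A := Real.mul_self_sqrt hAr.le
    have h4 : 0 ≤ √(A : ℝ) := Real.sqrt_nonneg _
    have h5 : 1 ≤ ε / 4 * √(A : ℝ) := by
      have := mul_le_mul_of_nonneg_left h2 (by positivity : 0 ≤ ε / 4)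
      have e : ε / 4 * (4 / ε) = 1 := by field_simp
      linarith
    calc √(A : ℝ) = 1 * √(A : ℝ) := by ring
      _ ≤ (ε / 4 * √(A : ℝ)) * √(A : ℝ) := mul_le_mul_of_nonneg_right h5 h4
      _ = ε / 4 * (√(A : ℝ) * √(A : ℝ)) := by ring
      _ = ε / 4 * A := by rw [h3]
  obtain ⟨B, hB⟩ : ∃ B : Finset ℕ, B = (Icc 1 A).filter (fun a : ℕ => Squarefree a ∧
    ∀ p : ℕ, p ∈ a.primeFactors → (p : ℝ) ≤ (A : ℝ) ^ η) := ⟨_, rfl⟩
  rw [← hB]
  have hsub : B ⊆ Icc 1 A := by rw [hB]; exact filter_subset _ _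
  have hw1 : 1 ≤ ⌊(A : ℝ) ^ η⌋₊ := by
    rw [Nat.one_le_floor_iff]
    exact Real.one_le_rpow (by exact_mod_cast (by omega : 1 ≤ A)) hη0.le
  have hBw : ∀ a ∈ B, Squarefree a ∧ ∀ p ∈ a.primeFactors, p ≤ ⌊(A : ℝ) ^ η⌋₊ := by
    intro a ha
    rw [hB] at ha
    obtain ⟨_, h2, h3⟩ := mem_filter.mp ha
    exact ⟨h2, fun p hp => Nat.le_floor (h3 p hp)⟩
  have hs := sum_log A ⌊(A : ℝ) ^ η⌋₊ B hsub hBw
  have hm := hM ⌊(A : ℝ) ^ η⌋₊ hw1
  have hlw : Real.log (⌊(A : ℝ) ^ η⌋₊ : ℝ) ≤ η * Real.log A := by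
    rw [← Real.log_rpow hAr]
    exact Real.log_le_log (by exact_mod_cast hw1) (Nat.floor_le (by positivity))
  have hc := card_split A B hsub
  have h5 : ∑ a ∈ B, Real.log a ≤ A * (ε / 4 * Real.log A) := by
    refine hs.trans (mul_le_mul_of_nonneg_left ?_ hAr.le)
    refine hm.trans ?_
    nlinarith
  have h6 : (B.card : ℝ) * Real.log A ≤ (ε * A) * Real.log A := by
    have h7 := mul_le_mul_of_nonneg_right hsqrt hlpos.le
    have h8 : 0 ≤ ε * A * Real.log A := by positivity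
    calc (B.card : ℝ) * Real.log A ≤ √(A : ℝ) * Real.log A + 2 * ∑ a ∈ B, Real.log a := hc
      _ ≤ ε / 4 * A * Real.log A + 2 * (A * (ε / 4 * Real.log A)) := by linarith
      _ ≤ _ := by nlinarith
  exact le_of_mul_le_mul_right h6 hlpos

end Pool.Agent.W356.HB.Smooth
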