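import Mathlib
import Pool.Agent.W313.HB.Stm3
import Pool.Agent.W613.HB.T1

/-!
# Rational points on almost all twists: weak approximation in several variables

Part T1W of project HB.
-/

set_option autoImplicit false
set_option linter.all false

namespace Pool.Agent.W356.HBW

open Finset Polynomial
open Pool.Agent.W313.BMX (Splits)
open Pool.Agent.W313.HB
open Pool.Agent.W613.HBT

variable {n : ℕ}

/-- Values of a homogeneous polynomial at a multiple of a point. -/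
theorem aeval_mul_hom {K : Type} [Field K] {d : ℕ} (F : MvPolynomial (Fin (n + 1)) ℤ)
    (hF : F.IsHomogeneous d) (μ : K) (y : Fin (n + 1) → K) :
    MvPolynomial.aeval (fun i => μ * y i) F = μ ^ d * MvPolynomial.aeval y F := by
  rw [MvPolynomial.aeval_def, MvPolynomial.aeval_def, MvPolynomial.eval₂_eq',
    MvPolynomial.eval₂_eq', Finset.mul_sum]
  refine Finset.sum_congr rfl fun m hm => ?_
  have h1 : ∑ i, m i = d := by
    have h := hF (MvPolynomial.mem_support_iff.1 hm)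
    rw [← h, Finsupp.weight_apply, Finsupp.sum_fintype _ _ (by simp)]
    simp
  have h2 : ∏ i, (μ * y i) ^ m i = μ ^ d * ∏ i, y i ^ m i := by
    rw [← h1, ← Finset.prod_pow_eq_pow_sum, ← Finset.prod_mul_distrib]
    refine Finset.prod_congr rfl fun i _ => ?_
    rw [mul_pow]
  rw [h2]
  ring

/-- Nonzero square factors do not matter. -/
theorem splits_sq {K : Type} [Field K] (a b c d : K) (hc : c ≠ 0) (hd : d ≠ 0)
    (h : Splits a b) : Splits (c ^ 2 * a) (d ^ 2 * b) := by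
  obtain ⟨x, y, z, hne, he⟩ := h
  refine ⟨x / c, y / d, z, ?_, ?_⟩
  · rcases hne with h | h | h
    · exact Or.inl (div_ne_zero h hc)
    · exact Or.inr (Or.inl (div_ne_zero h hd))
    · exact Or.inr (Or.inr h)
  · rw [he]
    field_simp

/-- The real estimate. -/
theorem real_est (w v : Fin (n + 1) → ℤ) (D N0 : ℕ) (hD : 1 ≤ D) (hN : 1 ≤ N0) (κ : ℝ)
    (hκ : 0 < κ) : ∃ (T0 : ℤ) (κ' : ℝ), 1 ≤ T0 ∧ 0 < κ' ∧ κ' ≤ 1 ∧ ∀ t : ℤ, T0 ≤ t → ∀ μ : ℝ,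
      |μ / (1 / ((D : ℝ) * N0 * t)) - 1| < κ' → ∀ i,
        |μ * ((w i + t * ((N0 : ℤ) * v i) : ℤ) : ℝ) - (v i : ℝ) / D| < κ := by
  obtain ⟨W, hW⟩ : ∃ W : ℝ, W = ∑ i, |(w i : ℝ)| := ⟨_, rfl⟩
  obtain ⟨V, hV⟩ : ∃ V : ℝ, V = ∑ i, |(v i : ℝ)| := ⟨_, rfl⟩
  have hW0 : 0 ≤ W := by rw [hW]; exact Finset.sum_nonneg fun i _ => abs_nonneg _
  have hV0 : 0 ≤ V := by rw [hV]; exact Finset.sum_nonneg fun i _ => abs_nonneg _
  have hWi : ∀ i, |(w i : ℝ)| ≤ W := fun i => by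
    rw [hW]; exact Finset.single_le_sum (f := fun i => |(w i : ℝ)|) (fun i _ => abs_nonneg _) (mem_univ i)
  have hVi : ∀ i, |(v i : ℝ)| ≤ V := fun i => by
    rw [hV]; exact Finset.single_le_sum (f := fun i => |(v i : ℝ)|) (fun i _ => abs_nonneg _) (mem_univ i)
  have hD1 : (1 : ℝ) ≤ D := by exact_mod_cast hD
  have hN1 : (1 : ℝ) ≤ N0 := by exact_mod_cast hN
  refine ⟨⌈4 * W / κ⌉ + 1, min 1 (κ / (4 * (V + 1))), ?_, ?_, min_le_left _ _, ?_⟩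
  · have : (0 : ℤ) ≤ ⌈4 * W / κ⌉ := Int.ceil_nonneg (by positivity)
    omega
  · exact lt_min one_pos (by positivity)
  intro t ht μ hμ i
  have ht1 : 4 * W / κ + 1 ≤ (t : ℝ) := by
    have h1 : ((⌈4 * W / κ⌉ + 1 : ℤ) : ℝ) ≤ t := by exact_mod_cast ht
    have h2 := Int.le_ceil (4 * W / κ)
    push_cast at h1
    linarith
  have h4W : 0 ≤ 4 * W / κ := by positivity
  have ht0 : (0 : ℝ) < t := by linarith
  have htW : 4 * W < κ * t := by
    have h1 : 4 * W / κ < t := by linarith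
    rw [div_lt_iff₀ hκ] at h1
    linarith
  obtain ⟨m, hm⟩ : ∃ m : ℝ, m = μ * ((D : ℝ) * N0 * t) := ⟨_, rfl⟩
  have hDN : (0 : ℝ) < (D : ℝ) * N0 * t := by positivity
  have hμm : μ = m / ((D : ℝ) * N0 * t) := by
    rw [hm]
    field_simp
  have hm1 : |m - 1| < min 1 (κ / (4 * (V + 1))) := by
    have e : μ / (1 / ((D : ℝ) * N0 * t)) = m := by
      rw [hm]
      field_simp
    rwa [e] at hμ
  have hma : |m - 1| < 1 := hm1.trans_le (min_le_left _ _)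
  have hmb : |m - 1| * V ≤ κ / 4 := by
    have h1 : |m - 1| ≤ κ / (4 * (V + 1)) := (hm1.trans_le (min_le_right _ _)).le
    have h2 : |m - 1| * V ≤ κ / (4 * (V + 1)) * V := mul_le_mul_of_nonneg_right h1 hV0
    have h3 : κ / (4 * (V + 1)) * V ≤ κ / 4 := by
      rw [div_mul_eq_mul_div, div_le_div_iff₀ (by positivity) (by norm_num)]
      nlinarith
    linarith
  have hm2 : |m| ≤ 2 := by
    have h1 : |m| ≤ |m - 1| + 1 := by
      have := abs_add_le (m - 1) 1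
      simpa using this
    linarith
  have e : μ * ((w i + t * ((N0 : ℤ) * v i) : ℤ) : ℝ) - (v i : ℝ) / D =
      m * (w i : ℝ) / ((D : ℝ) * N0 * t) + (m - 1) * (v i : ℝ) / D := by
    rw [hμm]
    push_cast
    field_simp
    ring
  rw [e]
  have hA : |m * (w i : ℝ) / ((D : ℝ) * N0 * t)| < κ / 2 := by
    rw [abs_div, abs_mul, abs_of_pos hDN, div_lt_iff₀ hDN]
    have h1 : |m| * |(w i : ℝ)| ≤ 2 * W := mul_le_mul hm2 (hWi i) (abs_nonneg _) (by norm_num)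
    have h2 : (t : ℝ) ≤ (D : ℝ) * N0 * t := by
      have : (1 : ℝ) ≤ (D : ℝ) * N0 := one_le_mul_of_one_le_of_one_le hD1 hN1
      nlinarith
    have h3 : κ / 2 * (t : ℝ) ≤ κ / 2 * ((D : ℝ) * N0 * t) :=
      mul_le_mul_of_nonneg_left h2 (by positivity)
    linarith
  have hB : |(m - 1) * (v i : ℝ) / D| ≤ κ / 4 := by
    rw [abs_div, abs_mul, abs_of_pos (by linarith : (0 : ℝ) < D)]
    have h1 : |m - 1| * |(v i : ℝ)| ≤ |m - 1| * V := mul_le_mul_of_nonneg_left (hVi i) (abs_nonneg _)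
    have h2 : |m - 1| * |(v i : ℝ)| / D ≤ |m - 1| * |(v i : ℝ)| :=
      div_le_self (by positivity) hD1
    linarith
  have := abs_add_le (m * (w i : ℝ) / ((D : ℝ) * N0 * t)) ((m - 1) * (v i : ℝ) / D)
  linarith

/-- All the points of the residue class `x` are local points at the primes up to `z`. -/
def TypW (A B : MvPolynomial (Fin (n + 1)) ℤ)
    (Ω : ∀ p : Nat.Primes, Set (Fin (n + 1) → ℚ_[(p : ℕ)])) (K k : Nat.Primes → ℕ) (z : ℕ)
    (a : ℕ) (x : Fin (n + 1) → ℕ) : Prop :=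
  ∀ p : Nat.Primes, (p : ℕ) ≤ z → ∀ y : Fin (n + 1) → ℤ,
    (∀ i, (((p : ℕ) ^ K p : ℕ) : ℤ) ∣ y i - x i) →
    Splits ((((a : ℤ) * MvPolynomial.eval y A : ℤ)) : ℚ_[(p : ℕ)])
      ((((a : ℤ) * MvPolynomial.eval y B : ℤ)) : ℚ_[(p : ℕ)]) ∧
    ∀ μ : ℚ_[(p : ℕ)], ‖μ * ((p : ℕ) : ℚ_[(p : ℕ)]) ^ k p - 1‖ ≤
        ((p : ℕ) : ℝ) ^ (-(K p : ℤ)) →
      (fun i => μ * (y i : ℚ_[(p : ℕ)])) ∈ Ω p

/-- Rational points from rational points on a line with a large parameter. -/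
theorem glob_of (hq : S_QAPP) {α β : ℕ} (A B : MvPolynomial (Fin (n + 1)) ℤ)
    (hA : A.IsHomogeneous (2 * α)) (hB : B.IsHomogeneous (2 * β))
    (v : Fin (n + 1) → ℤ) (Ωr : Set (Fin (n + 1) → ℝ)) (D : ℕ) (κ : ℝ) (hD : 1 ≤ D) (hκ : 0 < κ)
    (hΩr : ∀ y : Fin (n + 1) → ℝ, (∀ i, |y i - (v i : ℝ) / D| < κ) → y ∈ Ωr)
    (Ω : ∀ p : Nat.Primes, Set (Fin (n + 1) → ℚ_[(p : ℕ)])) (K k : Nat.Primes → ℕ) (z : ℕ)
    (hΩz : ∀ p : Nat.Primes, z < (p : ℕ) → Ω p = Set.univ)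
    (N0 : ℕ) (hN1 : 1 ≤ N0) (hNK : ∀ p : Nat.Primes, (p : ℕ) ≤ z → (p : ℕ) ^ K p ∣ N0)
    (x : Fin (n + 1) → ℕ) (w : Fin (n + 1) → ℤ) (hw : ∀ i, (N0 : ℤ) ∣ w i - x i) :
    ∃ T0 : ℤ, ∀ a : ℕ, TypW A B Ω K k z a x → ∀ t : ℤ, T0 ≤ t →
      MvPolynomial.eval (fun i => w i + t * ((N0 : ℤ) * v i)) A ≠ 0 →
      MvPolynomial.eval (fun i => w i + t * ((N0 : ℤ) * v i)) B ≠ 0 →
      Splits ((((a : ℤ) * MvPolynomial.eval (fun i => w i + t * ((N0 : ℤ) * v i)) A : ℤ)) : ℚ)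
        ((((a : ℤ) * MvPolynomial.eval (fun i => w i + t * ((N0 : ℤ) * v i)) B : ℤ)) : ℚ) →
      GlobW A B (a : ℤ) (a : ℤ) Ωr Ω := by
  classical
  obtain ⟨T0, κ', hT1, hκ0, hκ1, hest⟩ := real_est w v D N0 hD hN1 κ hκ
  refine ⟨T0, fun a hTyp t ht hyA hyB hspl => ?_⟩
  have hN1' : (1 : ℝ) ≤ N0 := by exact_mod_cast hN1
  have hD1' : (1 : ℝ) ≤ D := by exact_mod_cast hD
  have htp : (0 : ℝ) < t := by
    have : (1 : ℤ) ≤ t := hT1.trans ht
    have h2 : (1 : ℝ) ≤ t := by exact_mod_cast this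
    linarith
  have hfin : {p : Nat.Primes | (p : ℕ) ≤ z}.Finite := by
    refine Set.Finite.preimage (f := fun p : Nat.Primes => (p : ℕ))
      (fun p _ q _ h => Subtype.ext h) (Set.finite_Iic z)
  obtain ⟨μ, hμr, hμp⟩ := hq hfin.toFinset K k (1 / ((D : ℝ) * N0 * t)) κ' (by positivity) hκ0
  have hμ0 : μ ≠ 0 := by
    rintro rfl
    rw [Rat.cast_zero, zero_div, zero_sub, abs_neg, abs_one] at hμr
    linarith
  obtain ⟨y, hy⟩ : ∃ y : Fin (n + 1) → ℤ, y = fun i => w i + t * ((N0 : ℤ) * v i) := ⟨_, rfl⟩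
  rw [← hy] at hyA hyB hspl
  have hyA' : MvPolynomial.aeval (fun i => μ * ((y i : ℤ) : ℚ)) A =
      (μ ^ α) ^ 2 * ((MvPolynomial.eval y A : ℤ) : ℚ) := by
    rw [aeval_mul_hom A hA, aeval_cast]
    ring
  have hyB' : MvPolynomial.aeval (fun i => μ * ((y i : ℤ) : ℚ)) B =
      (μ ^ β) ^ 2 * ((MvPolynomial.eval y B : ℤ) : ℚ) := by
    rw [aeval_mul_hom B hB, aeval_cast]
    ring
  refine ⟨fun i => μ * ((y i : ℤ) : ℚ), ?_, ?_, ?_, ?_, ?_⟩
  · refine hΩr _ fun i => ?_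
    have h := hest t ht (μ : ℝ) hμr i
    have e : (((μ * ((y i : ℤ) : ℚ) : ℚ)) : ℝ) =
        (μ : ℝ) * ((w i + t * ((N0 : ℤ) * v i) : ℤ) : ℝ) := by
      rw [hy]
      push_cast
      ring
    rw [e]
    exact h
  · intro p
    by_cases hp : (p : ℕ) ≤ z
    · have h1 := hμp p (hfin.mem_toFinset.2 hp)
      have hy1 : ∀ i, (((p : ℕ) ^ K p : ℕ) : ℤ) ∣ y i - x i := by
        intro i
        have h2 : (((p : ℕ) ^ K p : ℕ) : ℤ) ∣ (N0 : ℤ) := by exact_mod_cast hNK p hp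
        have e : y i - x i = (w i - x i) + N0 * (t * v i) := by
          rw [hy]
          ring
        rw [e]
        exact h2.trans ((hw i).add (dvd_mul_right _ _))
      have h3 := (hTyp p hp y hy1).2 (μ : ℚ_[(p : ℕ)]) h1
      have e : (fun i => ((μ * ((y i : ℤ) : ℚ) : ℚ) : ℚ_[(p : ℕ)])) =
          fun i => (μ : ℚ_[(p : ℕ)]) * ((y i : ℤ) : ℚ_[(p : ℕ)]) := by
        funext i
        push_cast
        ring
      rw [e]
      exact h3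
    · rw [hΩz p (by omega)]
      exact Set.mem_univ _
  · rw [hyA']
    have : ((MvPolynomial.eval y A : ℤ) : ℚ) ≠ 0 := by exact_mod_cast hyA
    positivity
  · rw [hyB']
    have : ((MvPolynomial.eval y B : ℤ) : ℚ) ≠ 0 := by exact_mod_cast hyB
    positivity
  · have h1 := splits_sq _ _ (μ ^ α) (μ ^ β) (pow_ne_zero _ hμ0) (pow_ne_zero _ hμ0) hspl
    rw [hyA', hyB']
    convert h1 using 1 <;> push_cast <;> ring

open Classical in
theorem per_type_w (hc : S_COREW) (hl : S_LDEG) (hq : S_QAPP) {α β : ℕ}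
    (A B : MvPolynomial (Fin (n + 1)) ℤ)
    (hA : A.IsHomogeneous (2 * α)) (hB : B.IsHomogeneous (2 * β)) (hαβ : 1 ≤ α + β)
    (v : Fin (n + 1) → ℤ) (hvA : MvPolynomial.eval v A ≠ 0) (hvB : MvPolynomial.eval v B ≠ 0)
    (hvpos : 0 < MvPolynomial.eval v A ∨ 0 < MvPolynomial.eval v B)
    (Ωr : Set (Fin (n + 1) → ℝ)) (D : ℕ) (κ : ℝ) (hD : 1 ≤ D) (hκ : 0 < κ)
    (hΩr : ∀ y : Fin (n + 1) → ℝ, (∀ i, |y i - (v i : ℝ) / D| < κ) → y ∈ Ωr)
    (Ω : ∀ p : Nat.Primes, Set (Fin (n + 1) → ℚ_[(p : ℕ)])) (K k : Nat.Primes → ℕ) (z : ℕ)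
    (hΩz : ∀ p : Nat.Primes, z < (p : ℕ) → Ω p = Set.univ) (z2 : ℕ)
    (hz2 : ∀ p : ℕ, p.Prime → z2 ≤ p → ∀ F : ℤ[X],
      F.natDegree ≤ 2 * α + 2 * β → 1 ≤ (F.map (Int.castRingHom (ZMod p))).natDegree →
      (F.map (Int.castRingHom (ZMod p))).Separable → ∀ σ : ℤ, (σ = 1 ∨ σ = -1) →
        ∃ x : ℕ, x < p ∧ jacobiSym (F.eval (x : ℤ)) p = σ)
    (h2 : 2 ≤ z) (hz2' : z2 ≤ z) (hDz : 2 * α + 2 * β ≤ z)
    (hFv : ∀ p : ℕ, p.Prime → (p : ℤ) ∣ MvPolynomial.eval v (A * B) → p ≤ z)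
    (N0 : ℕ) (hN1 : 1 ≤ N0) (hNp : ∀ p : ℕ, p.Prime → (p ∣ N0 ↔ p ≤ z))
    (hNK : ∀ p : Nat.Primes, (p : ℕ) ≤ z → (p : ℕ) ^ K p ∣ N0)
    (x : Fin (n + 1) → ℕ) (w : Fin (n + 1) → ℤ) (hw : ∀ i, (N0 : ℤ) ∣ w i - x i) (r0 : ℤ)
    (hr0 : r0 ≠ 0) (a1 b1 : ℤ[X])
    (hab : a1 * lineP (A * B) w v + b1 * derivative (lineP (A * B) w v) = C r0)
    (ε' : ℝ) (hε' : 0 < ε') :
    ∃ H0 : ℕ, ∀ H : ℕ, H0 ≤ H → (((Icc 1 H).filter (fun a : ℕ => Squarefree a ∧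
      TypW A B Ω K k z a x ∧ ¬ GlobW A B (a : ℤ) (a : ℤ) Ωr Ω ∧
      ∀ p : ℕ, p.Prime → (p : ℤ) ∣ r0 → ¬ p ∣ N0 → ¬ p ∣ a)).card : ℝ) ≤ ε' * H := by
  have hN0 : (N0 : ℤ) ≠ 0 := by exact_mod_cast (by omega : N0 ≠ 0)
  have hvF : MvPolynomial.eval v (A * B) ≠ 0 := by
    rw [map_mul]
    exact mul_ne_zero hvA hvB
  have hF : (A * B).IsHomogeneous (2 * α + 2 * β) := hA.mul hB
  obtain ⟨T0, hT0⟩ := glob_of hq A B hA hB v Ωr D κ hD hκ hΩr Ω K k z hΩz N0 hN1 hNK x w hw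
  set P1 := lineP A w (fun i => (N0 : ℤ) * v i) with hP1
  set P2 := lineP B w (fun i => (N0 : ℤ) * v i) with hP2
  have hP : P1 * P2 = lineP (A * B) w (fun i => (N0 : ℤ) * v i) := (lineP_mul _ _ _ _).symm
  obtain ⟨hd, hlc⟩ := line_facts hl (A * B) hF w v hvF N0 hN0
  obtain ⟨hd1, hlc1⟩ := line_facts hl A hA w v hvA N0 hN0
  obtain ⟨hd2, hlc2⟩ := line_facts hl B hB w v hvB N0 hN0
  rw [← hP] at hd hlc
  rw [← hP1] at hd1 hlc1
  rw [← hP2] at hd2 hlc2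
  have hgood : Good (P1 * P2) := by
    refine ⟨?_, by rw [hd]; omega⟩
    rw [hP, lineP_comp]
    refine sep_of_comb (Int.castRingHom ℚ) _ a1 b1 _ r0 hab ?_
    rw [eq_intCast]
    exact_mod_cast mul_ne_zero hN0 hr0
  have hNpos : (0 : ℤ) < N0 := by exact_mod_cast hN1
  have hpos : 0 < P1.leadingCoeff ∨ 0 < P2.leadingCoeff := by
    rcases hvpos with h | h
    · left
      rw [hlc1]
      exact mul_pos h (pow_pos hNpos _)
    · right
      rw [hlc2]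
      exact mul_pos h (pow_pos hNpos _)
  obtain ⟨z3, hz3⟩ := hc P1 P2 hgood hpos
  set Q := (range (z3 + 1)).filter (fun p => p.Prime ∧ ¬ p ∣ N0) with hQ
  have hQm : ∀ p, p ∈ Q ↔ p ≤ z3 ∧ p.Prime ∧ ¬ p ∣ N0 := by
    intro p
    rw [hQ, mem_filter, mem_range, Nat.lt_succ_iff]
  obtain ⟨H0, hH0⟩ := hz3 (N0 * ∏ p ∈ Q, p)
    (Nat.mul_pos hN1 (Finset.prod_pos fun p hp => ((hQm p).1 hp).2.1.pos))
    (fun p hp hpz => by
      by_cases h : p ∣ N0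
      · exact h.mul_right _
      · exact (dvd_prod_of_mem _ ((hQm p).2 ⟨hpz, hp, h⟩)).mul_left _) T0 ε' hε'
  refine ⟨H0, fun H hH => le_trans ?_ (hH0 H hH)⟩
  refine Nat.cast_le.2 (card_le_card ?_)
  intro a ha
  rw [mem_filter] at ha ⊢
  obtain ⟨haI, hasq, haT, haP, har⟩ := ha
  refine ⟨haI, hasq, ?_⟩
  -- residues
  have hs : ∀ q : ℕ, ∃ s : ℕ, q ∈ Q → (q ∣ a → jacobiSym ((-(P1 * P2)).eval (s : ℤ)) q = 1) ∧
      (¬ q ∣ a → ¬ (q : ℤ) ∣ (P1 * P2).eval (s : ℤ)) := by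
    intro q
    by_cases hq : q ∈ Q
    · obtain ⟨hqz, hqp, hqN⟩ := (hQm q).1 hq
      have hqz' : z < q := by
        by_contra h
        exact hqN ((hNp q hqp).2 (by omega))
      obtain ⟨s, hs⟩ := exists_s hz2 q hqp (by omega) (by omega) (P1 * P2) hd (by omega)
        (by
          rw [hlc]
          intro h
          rcases Int.Prime.dvd_mul' hqp h with h | h
          · exact absurd (hFv q hqp h) (by omega)
          · have h5 := Int.Prime.dvd_pow' hqp h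
            exact hqN (by exact_mod_cast h5)) a
        (by
          intro hqa
          rw [hP, lineP_comp]
          haveI := Fact.mk hqp
          refine sep_of_comb (Int.castRingHom (ZMod q)) _ a1 b1 _ r0 hab ?_
          rw [eq_intCast, Ne, ZMod.intCast_zmod_eq_zero_iff_dvd]
          intro h
          rcases Int.Prime.dvd_mul' hqp h with h | h
          · exact hqN (by exact_mod_cast h)
          · exact har q hqp h hqN hqa)
      exact ⟨s, fun _ => hs⟩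
    · exact ⟨0, fun h => absurd h hq⟩
  choose s hs using hs
  obtain ⟨t0, ht0⟩ := crt Q (fun q => q) s (fun q hq => ((hQm q).1 hq).2.1.ne_zero)
    (fun p hp q hq hpq => (Nat.coprime_primes ((hQm p).1 hp).2.1 ((hQm q).1 hq).2.1).2 hpq)
  refine ⟨t0, ?_, ?_⟩
  · intro p hpF hpN t htN hPt
    have hp := hpF.out
    by_cases hpN0 : p ∣ N0
    · have hpz := (hNp p hp).1 hpN0
      rw [hP1, hP2, lineP_eval, lineP_eval]
      refine (haT ⟨p, hp⟩ hpz _ fun i => ?_).1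
      have h1 : (((((⟨p, hp⟩ : Nat.Primes) : ℕ) ^ K ⟨p, hp⟩ : ℕ)) : ℤ) ∣ (N0 : ℤ) := by
        exact_mod_cast hNK ⟨p, hp⟩ hpz
      have e : w i + t * ((N0 : ℤ) * v i) - x i = (w i - x i) + N0 * (t * v i) := by ring
      rw [e]
      exact h1.trans ((hw i).add (dvd_mul_right _ _))
    · have hpQ : p ∈ Q := by
        rcases (Nat.Prime.dvd_mul hp).1 hpN with h | h
        · exact absurd h hpN0
        · obtain ⟨q, hq, hpq⟩ := (Prime.dvd_finset_prod_iff hp.prime _).1 h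
          rwa [(Nat.prime_dvd_prime_iff_eq hp ((hQm q).1 hq).2.1).1 hpq]
      have hp2 : p ≠ 2 := by
        rintro rfl
        exact hpN0 ((hNp 2 hp).2 h2)
      refine splits_odd p hp2 P1 P2 a (s p) t ?_ (hs p hpQ).1 (hs p hpQ).2
      have h1 : (p : ℤ) ∣ t - t0 := by
        refine dvd_trans ?_ htN
        exact_mod_cast (dvd_prod_of_mem (fun p => p) hpQ).mul_left N0
      have h3 : (p : ℤ) ∣ (t0 : ℤ) - s p := by
        have h4 := (Nat.modEq_iff_dvd.1 (ht0 p hpQ).symm)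
        exact h4
      have e : t - (s p : ℤ) = (t - t0) + (t0 - s p) := by ring
      rw [e]
      exact h1.add h3
  · rintro ⟨t, -, htT, hPt, hspl⟩
    apply haP
    rw [eval_mul] at hPt
    have hPt1 : P1.eval t ≠ 0 := left_ne_zero_of_mul hPt
    have hPt2 : P2.eval t ≠ 0 := right_ne_zero_of_mul hPt
    rw [hP1, lineP_eval] at hPt1
    rw [hP2, lineP_eval] at hPt2
    rw [hP1, hP2, lineP_eval, lineP_eval] at hspl
    exact hT0 a haT t htT hPt1 hPt2 hspl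

theorem t1w_ (hc : S_COREW) (he : S_EXISTU) (hl : S_LDEG) (hd : S_DISC) (hch : S_CHOOSE)
    (ht : S_TYPEW) (hr : S_REALTW) (hq : S_QAPP) : S_T1W := by
  classical
  intro n α β A B hA hB hαβ hsq Ωr Ω hΩro hΩo hΩf ε hε
  by_cases hV : ∃ a : ℕ, 0 < a ∧ HasPW A B (a : ℤ) (a : ℤ) Ωr
  swap
  · refine ⟨0, fun H _ => ?_⟩
    have h0 : ((Icc 1 H).filter (fun a : ℕ => Squarefree a ∧ HasPW A B (a : ℤ) (a : ℤ) Ωr ∧
      (∀ p : Nat.Primes, HasPW A B (a : ℤ) (a : ℤ) (Ω p)) ∧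
      ¬ GlobW A B (a : ℤ) (a : ℤ) Ωr Ω)) = ∅ := by
      rw [filter_eq_empty_iff]
      intro a ha h
      exact hV ⟨a, (mem_Icc.1 ha).1, h.2.1⟩
    have h1 : (0 : ℝ) ≤ ε * H := by positivity
    convert h1
    simpa using h0
  obtain ⟨a0, ha0, hP0⟩ := hV
  obtain ⟨v, D, κ, hD, hκ, hvA, hvB, hvpos, hΩr⟩ := hr n α β A B hA hB a0 a0
    (by exact_mod_cast ha0) (by exact_mod_cast ha0) Ωr hΩro hP0
  have hvF : MvPolynomial.eval v (A * B) ≠ 0 := by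
    rw [map_mul]
    exact mul_ne_zero hvA hvB
  have hF : (A * B).IsHomogeneous (2 * α + 2 * β) := hA.mul hB
  obtain ⟨r, hr0, hrw⟩ := hd n _ (A * B) hF hsq v hvF
  obtain ⟨z1, hz1⟩ := hch n r hr0
  obtain ⟨z2, hz2⟩ := he (2 * α + 2 * β)
  have hK : ∀ p : Nat.Primes, ∃ K k : ℕ, ∀ a b : ℤ, Squarefree a → Squarefree b →
      HasPW A B a b (Ω p) → ∃ x0 : Fin (n + 1) → ℕ,
      (∀ i, x0 i < (p : ℕ) ^ K) ∧ ∀ x : Fin (n + 1) → ℤ,
        (∀ i, (((p : ℕ) ^ K : ℕ) : ℤ) ∣ x i - x0 i) →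
        MvPolynomial.eval x A ≠ 0 ∧ MvPolynomial.eval x B ≠ 0 ∧
        Splits ((((a * MvPolynomial.eval x A : ℤ))) : ℚ_[(p : ℕ)])
          ((((b * MvPolynomial.eval x B : ℤ))) : ℚ_[(p : ℕ)]) ∧
        ∀ μ : ℚ_[(p : ℕ)], ‖μ * ((p : ℕ) : ℚ_[(p : ℕ)]) ^ k - 1‖ ≤ ((p : ℕ) : ℝ) ^ (-(K : ℤ)) →
          (fun i => μ * (x i : ℚ_[(p : ℕ)])) ∈ Ω p :=
    fun p => ht n α β A B hA hB (p : ℕ) (Ω p) (hΩo p)
  choose K k hK using hK
  obtain ⟨z4, hz4⟩ : ∃ z4 : ℕ, ∀ p : Nat.Primes, z4 < (p : ℕ) → Ω p = Set.univ := by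
    refine ⟨hΩf.toFinset.sup (fun p => (p : ℕ)), fun p hp => ?_⟩
    by_contra h
    have h1 : p ∈ hΩf.toFinset := hΩf.mem_toFinset.2 h
    have h2 := Finset.le_sup (f := fun p : Nat.Primes => (p : ℕ)) h1
    exact absurd h2 (by simpa using hp)
  obtain ⟨z, hz⟩ : ∃ z : ℕ, z = max (max 2 z1) (max z2 (max (max (2 * α + 2 * β) z4)
    (MvPolynomial.eval v (A * B)).natAbs)) := ⟨_, rfl⟩
  have hza : 2 ≤ z := by rw [hz]; exact (le_max_left _ _).trans (le_max_left _ _)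
  have hzb : z1 ≤ z := by rw [hz]; exact (le_max_right _ _).trans (le_max_left _ _)
  have hzc : z2 ≤ z := by rw [hz]; exact (le_max_left _ _).trans (le_max_right _ _)
  have hzd : 2 * α + 2 * β ≤ z := by
    rw [hz]
    exact (((le_max_left _ _).trans (le_max_left _ _)).trans (le_max_right _ _)).trans
      (le_max_right _ _)
  have hzf : z4 ≤ z := by
    rw [hz]
    exact (((le_max_right _ _).trans (le_max_left _ _)).trans (le_max_right _ _)).trans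
      (le_max_right _ _)
  have hze : (MvPolynomial.eval v (A * B)).natAbs ≤ z := by
    rw [hz]
    exact ((le_max_right _ _).trans (le_max_right _ _)).trans (le_max_right _ _)
  have hΩz : ∀ p : Nat.Primes, z < (p : ℕ) → Ω p = Set.univ := fun p hp => hz4 p (by omega)
  obtain ⟨Ps, hPs⟩ : ∃ Ps : Finset Nat.Primes, ∀ p : Nat.Primes, p ∈ Ps ↔ (p : ℕ) ≤ z := by
    have hfin : {p : Nat.Primes | (p : ℕ) ≤ z}.Finite := by
      refine Set.Finite.preimage (f := fun p : Nat.Primes => (p : ℕ))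
        (fun p _ q _ h => Subtype.ext h) (Set.finite_Iic z)
    exact ⟨hfin.toFinset, fun p => hfin.mem_toFinset⟩
  obtain ⟨N0, hN0⟩ : ∃ N0 : ℕ, N0 = ∏ p ∈ Ps, (p : ℕ) ^ (K p + 1) := ⟨_, rfl⟩
  have hN1 : 1 ≤ N0 := by
    rw [hN0]
    exact Nat.one_le_iff_ne_zero.2 (Finset.prod_pos (f := fun p : Nat.Primes => (p : ℕ) ^ (K p + 1))
      (fun p hp => pow_pos p.2.pos _)).ne'
  have hNK : ∀ p : Nat.Primes, (p : ℕ) ≤ z → (p : ℕ) ^ K p ∣ N0 := fun p hpz => by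
    rw [hN0]
    exact (pow_dvd_pow _ (Nat.le_succ _)).trans
      (dvd_prod_of_mem (fun p : Nat.Primes => (p : ℕ) ^ (K p + 1)) ((hPs p).2 hpz))
  have hNp : ∀ p : ℕ, p.Prime → (p ∣ N0 ↔ p ≤ z) := by
    intro p hp
    constructor
    · intro h
      rw [hN0] at h
      obtain ⟨q, hq, hpq⟩ := (Prime.dvd_finset_prod_iff hp.prime _).1 h
      have h1 := hp.dvd_of_dvd_pow hpq
      rw [(Nat.prime_dvd_prime_iff_eq hp q.2).1 h1]
      exact (hPs q).1 hq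
    · intro hpz
      rw [hN0]
      exact (dvd_pow_self p (Nat.succ_ne_zero (K ⟨p, hp⟩))).trans
        (dvd_prod_of_mem (fun p : Nat.Primes => (p : ℕ) ^ (K p + 1)) ((hPs ⟨p, hp⟩).2 hpz))
  -- every number has a type
  obtain ⟨T, hT⟩ : ∃ T : Finset (Fin (n + 1) → ℕ), T = Fintype.piFinset (fun _ => range N0) :=
    ⟨_, rfl⟩
  have hTne : T.Nonempty := by
    rw [hT, Fintype.piFinset_nonempty]
    exact fun _ => ⟨0, mem_range.2 hN1⟩
  have hTc : (0 : ℝ) < T.card := by exact_mod_cast hTne.card_pos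
  have htyp : ∀ a : ℕ, Squarefree a →
      (∀ p : Nat.Primes, HasPW A B (a : ℤ) (a : ℤ) (Ω p)) →
      ∃ x ∈ T, TypW A B Ω K k z a x := by
    intro a ha hloc
    have ha' : Squarefree (a : ℤ) := Int.squarefree_natCast.2 ha
    have hx := fun p : Nat.Primes => hK p (a : ℤ) (a : ℤ) ha' ha' (hloc p)
    choose x0 hx1 hx0 using hx
    have hk : ∀ i : Fin (n + 1), ∃ m : ℕ, ∀ p ∈ Ps, m ≡ x0 p i [MOD (p : ℕ) ^ K p] := by
      intro i
      obtain ⟨m, hm⟩ := Nat.chineseRemainderOfFinset (fun p : Nat.Primes => x0 p i)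
        (fun p : Nat.Primes => (p : ℕ) ^ K p) Ps
        (fun p hp => (pow_pos p.2.pos _).ne')
        (fun p hp q hq hpq => Nat.Coprime.pow _ _
          ((Nat.coprime_primes p.2 q.2).2 (fun h => hpq (Subtype.ext h))))
      exact ⟨m, hm⟩
    choose m hm using hk
    refine ⟨fun i => m i % N0, ?_, ?_⟩
    · rw [hT, Fintype.mem_piFinset]
      exact fun i => mem_range.2 (Nat.mod_lt _ hN1)
    · intro p hpz y hy
      have h3 := hx0 p y fun i => by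
        have h1 : m i % N0 ≡ x0 p i [MOD (p : ℕ) ^ K p] :=
          (Nat.ModEq.of_dvd (hNK p hpz) (Nat.mod_modEq (m i) N0)).trans
            (hm i p ((hPs p).2 hpz))
        have h2 := Nat.modEq_iff_dvd.1 h1.symm
        have e : y i - (x0 p i : ℤ) = (y i - ((m i % N0 : ℕ) : ℤ)) +
          (((m i % N0 : ℕ) : ℤ) - x0 p i) := by ring
        rw [e]
        exact (hy i).add h2
      exact h3.2.2
  obtain ⟨ε', hε'⟩ : ∃ ε' : ℝ, ε' = ε / (2 * T.card) := ⟨_, rfl⟩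
  have hε'0 : 0 < ε' := by
    rw [hε']
    positivity
  have hmain : ∀ x : Fin (n + 1) → ℕ, ∃ (w : Fin (n + 1) → ℤ) (H0 : ℕ),
      (∑ p ∈ (MvPolynomial.eval w r).natAbs.primeFactors.filter (fun p => ¬ p ∣ N0),
        1 / (p : ℝ) ≤ ε') ∧ MvPolynomial.eval w r ≠ 0 ∧
      ∀ H : ℕ, H0 ≤ H → (((Icc 1 H).filter (fun a : ℕ => Squarefree a ∧
        TypW A B Ω K k z a x ∧ ¬ GlobW A B (a : ℤ) (a : ℤ) Ωr Ω ∧
        ∀ p : ℕ, p.Prime → (p : ℤ) ∣ MvPolynomial.eval w r → ¬ p ∣ N0 → ¬ p ∣ a)).card : ℝ)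
          ≤ ε' * H := by
    intro x
    obtain ⟨w, hw1, hw2, hw3⟩ := hz1 N0 hN1 (fun p hp hpz => (hNp p hp).2 (hpz.trans hzb))
      (fun i => (x i : ℤ)) ε' hε'0
    obtain ⟨a1, b1, hab⟩ := hrw w
    obtain ⟨H0, hH0⟩ := per_type_w hc hl hq A B hA hB hαβ v hvA hvB hvpos Ωr D κ hD hκ hΩr
      Ω K k z hΩz z2 hz2 hza hzc hzd
      (fun p hp hpv => by
        have h1 : p ∣ (MvPolynomial.eval v (A * B)).natAbs := Int.natCast_dvd.1 hpv
        exact (Nat.le_of_dvd (Int.natAbs_pos.2 hvF) h1).trans hze)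
      N0 hN1 hNp hNK x w hw1 _ hw2 a1 b1 hab ε' hε'0
    refine ⟨w, H0, hw3, hw2, fun H hH => ?_⟩
    convert hH0 H hH
  choose w H0 hw1 hw2 hw3 using hmain
  refine ⟨T.sup H0, fun H hH => ?_⟩
  have key := count T ((Icc 1 H).filter (fun a : ℕ => Squarefree a ∧
      HasPW A B (a : ℤ) (a : ℤ) Ωr ∧
      (∀ p : Nat.Primes, HasPW A B (a : ℤ) (a : ℤ) (Ω p)) ∧
      ¬ GlobW A B (a : ℤ) (a : ℤ) Ωr Ω))
    (fun x => (Icc 1 H).filter (fun a : ℕ => ∃ p ∈ (MvPolynomial.eval (w x)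
      r).natAbs.primeFactors.filter (fun p => ¬ p ∣ N0), p ∣ a))
    (fun x => (Icc 1 H).filter (fun a : ℕ => Squarefree a ∧
        TypW A B Ω K k z a x ∧ ¬ GlobW A B (a : ℤ) (a : ℤ) Ωr Ω ∧
        ∀ p : ℕ, p.Prime → (p : ℤ) ∣ MvPolynomial.eval (w x) r → ¬ p ∣ N0 → ¬ p ∣ a))
    ε' H ?_ ?_ ?_
  · have e : (T.card : ℝ) * (2 * ε') * H = ε * H := by
      rw [hε']
      field_simp
    rw [e] at key
    convert key
  · intro a ha
    rw [mem_filter] at ha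
    obtain ⟨haI, hasq, -, hloc, hno⟩ := ha
    obtain ⟨x, hxT, hx⟩ := htyp a hasq hloc
    refine ⟨x, hxT, ?_⟩
    by_cases hdv : ∃ p ∈ (MvPolynomial.eval (w x) r).natAbs.primeFactors.filter
        (fun p => ¬ p ∣ N0), p ∣ a
    · exact Or.inl (mem_filter.2 ⟨haI, hdv⟩)
    · refine Or.inr (mem_filter.2 ⟨haI, hasq, hx, hno, ?_⟩)
      intro p hp hpr hpN hpa
      refine hdv ⟨p, mem_filter.2 ⟨?_, hpN⟩, hpa⟩
      exact Nat.mem_primeFactors.2 ⟨hp, Int.natCast_dvd.1 hpr, Int.natAbs_ne_zero.2 (hw2 x)⟩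
  · intro x hx
    refine (card_mult _ H).trans ?_
    exact mul_le_mul_of_nonneg_right (hw1 x) (Nat.cast_nonneg _)
  · intro x hx
    exact hw3 x H ((le_sup hx).trans hH)

end Pool.Agent.W356.HBW
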